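import Pool.Agent.W819.NC.Stm2
import Pool.Agent.W819.EN.BadT

set_option autoImplicit false

/-! # NC-BADX: superexponential tails of the bad event of the cylinder, with a function of the
inner box -/

namespace Pool.Agent.W52.NC
open H974 H906.Cyl Finset Pool.Agent.W819.EN Pool.Agent.W819.NC

theorem bad_onex {a M : ℕ} {k : ℕ} {x : ℝ} {φ : Finset Edg → ℝ} (h0 : ∀ F, 0 ≤ φ F)
    (ha : 0 < a) (hM : 20 * a ≤ M)
    (hφ : ∀ F, F ⊆ CE (10 * a) M → φ F = φ (F ∩ (boxE (2 * a - 1)).image (red (10 * a))))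
    {S : Finset Edg} (hS : S.image (red (10 * a)) ⊆ CE (10 * a) M)
    (hinj : Set.InjOn (red (10 * a)) S)
    (hd : ∀ x y x' y' : ℤ, ∀ t : Bool, x < 2 * a → -(2 * a : ℤ) < x → y < 2 * a →
      -(2 * a : ℤ) < y → ∀ m : ℤ, x' = x + 10 * a * m → y' = y + 10 * a * m →
      ((x', y', t) : Edg) ∈ S → False)
    (C : Finset Edg → Prop)
    (hp : Pr (fun _ => (1/2 : ℝ)) S (fun F => ¬ Pool.Agent.H863R2.NL.Opn k S C F) ≤ x) :
    Ex (fun _ => (1/2 : ℝ)) (CE (10 * a) M)
      (fun F => φ F * ind (¬ Pool.Agent.H863R2.NL.Opn k S C (pf (10 * a) S F))) ≤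
      x * Ex (fun _ => (1/2 : ℝ)) (CE (10 * a) M) φ := by
  have hB : (boxE (2 * a - 1)).image (red (10 * a)) ⊆ CE (10 * a) M := by
    unfold boxE
    exact image_red_sub (by omega) (by omega) (by omega)
  rw [Pool.Agent.H863R2.NL.BadAux.one hφ hB hS hinj ?_
    (fun F => ¬ Pool.Agent.H863R2.NL.Opn k S C F), mul_comm]
  · refine mul_le_mul_of_nonneg_right hp (Ex_nonneg (okq (by norm_num) (by norm_num)) ?_)
    exact fun F _ => h0 F
  · rintro ⟨x, y, t⟩ he ⟨x', y', t'⟩ he' h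
    obtain ⟨m, h1, h2, h3⟩ := Pool.Agent.H863R2.NL.BadAux.red_eq h
    simp only at h1 h2 h3
    have hx : (x < 2 * a ∧ -(2 * a : ℤ) < x) ∧ (y < 2 * a ∧ -(2 * a : ℤ) < y) := by
      unfold boxE at he
      cases t
      · simp only [mem_RE_false] at he
        omega
      · simp only [mem_RE_true] at he
        omega
    push_cast at h1 h2
    exact hd x y x' y' t' hx.1.1 hx.1.2 hx.2.1 hx.2.2 m h1 h2 he'

theorem t_BADX (hT : Pool.Agent.W819.EN.Tail) : BadX := by
  intro ρ hρ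
  obtain ⟨C, hC, hLR, hTB⟩ := tailLR hT hρ
  refine ⟨6 * C, by positivity, ?_⟩
  intro a ha φ h0 hφ k
  have ok := okq (q := 1/2) (by norm_num) (by norm_num)
  set b : ℤ := ((2 * a : ℕ) : ℤ) with hb
  set n : ℤ := ((10 * a : ℕ) : ℤ) with hn
  have hb' : b = 2 * (a : ℤ) := by rw [hb]; push_cast; ring
  have hn' : n = 10 * (a : ℤ) := by rw [hn]; push_cast; ring
  have ha' : (0 : ℤ) < a := by exact_mod_cast ha
  set S1 := LRE (-(2 * b)) (2 * b) b (2 * b) with hS1
  set S2 := LRE (-(2 * b)) (2 * b) (-(2 * b)) (-b) with hS2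
  set S3 := TBE b (2 * b) (-(2 * b)) (2 * b) with hS3
  set S4 := TBE (-(2 * b)) (-b) (-(2 * b)) (2 * b) with hS4
  set S5 := LRE b (n + 2 * b) (-b) b with hS5
  set S6 := TBE (n - b) (n + b) (-(2 * b)) (n - b) with hS6
  have b1 := bad_onex (M := 20 * a) (k := k) h0 ha le_rfl hφ (S := S1)
    (by
      refine (image_subset_image LRE_subset_RE).trans (image_red_sub (by omega) ?_ ?_) <;> omega)
    ((red_inj_x (n := 10 * a) (a := -(2 * b)) (b := 2 * b) (c := b) (d := 2 * b)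
      (by omega)).mono (by exact_mod_cast LRE_subset_RE))
    (by
      intro x y x' y' t h1 h2 h3 h4 m h5 h6 h7
      have h8 : 2 * (a : ℤ) ≤ y' ∧ y' ≤ 4 * a := by
        cases t
        · rw [hS1, mem_LRE_false] at h7; omega
        · rw [hS1, mem_LRE_true] at h7; omega
      rcases lt_trichotomy m 0 with hm | hm | hm
      · nlinarith
      · subst hm; omega
      · nlinarith)
    (LRc (-(2 * b)) (2 * b) b (2 * b))
    (hLR _ _ _ _ (by omega) (by omega) (by omega) k)
  have b2 := bad_onex (M := 20 * a) (k := k) h0 ha le_rfl hφ (S := S2)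
    (by
      refine (image_subset_image LRE_subset_RE).trans (image_red_sub (by omega) ?_ ?_) <;> omega)
    ((red_inj_x (n := 10 * a) (a := -(2 * b)) (b := 2 * b) (c := -(2 * b)) (d := -b)
      (by omega)).mono (by exact_mod_cast LRE_subset_RE))
    (by
      intro x y x' y' t h1 h2 h3 h4 m h5 h6 h7
      have h8 : -(4 * (a : ℤ)) ≤ y' ∧ y' ≤ -(2 * a) := by
        cases t
        · rw [hS2, mem_LRE_false] at h7; omega
        · rw [hS2, mem_LRE_true] at h7; omega
      rcases lt_trichotomy m 0 with hm | hm | hm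
      · nlinarith
      · subst hm; omega
      · nlinarith)
    (LRc (-(2 * b)) (2 * b) (-(2 * b)) (-b))
    (hLR _ _ _ _ (by omega) (by omega) (by omega) k)
  have b3 := bad_onex (M := 20 * a) (k := k) h0 ha le_rfl hφ (S := S3)
    (by
      refine (image_subset_image TBE_subset_RE).trans (image_red_sub (by omega) ?_ ?_) <;> omega)
    ((red_inj_x (n := 10 * a) (a := b) (b := 2 * b) (c := -(2 * b)) (d := 2 * b)
      (by omega)).mono (by exact_mod_cast TBE_subset_RE))
    (by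
      intro x y x' y' t h1 h2 h3 h4 m h5 h6 h7
      have h8 : 2 * (a : ℤ) ≤ x' ∧ x' ≤ 4 * a := by
        cases t
        · rw [hS3, mem_TBE_false] at h7; omega
        · rw [hS3, mem_TBE_true] at h7; omega
      rcases lt_trichotomy m 0 with hm | hm | hm
      · nlinarith
      · subst hm; omega
      · nlinarith)
    (TBc b (2 * b) (-(2 * b)) (2 * b))
    (hTB _ _ _ _ (by omega) (by omega) (by omega) k)
  have b4 := bad_onex (M := 20 * a) (k := k) h0 ha le_rfl hφ (S := S4)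
    (by
      refine (image_subset_image TBE_subset_RE).trans (image_red_sub (by omega) ?_ ?_) <;> omega)
    ((red_inj_x (n := 10 * a) (a := -(2 * b)) (b := -b) (c := -(2 * b)) (d := 2 * b)
      (by omega)).mono (by exact_mod_cast TBE_subset_RE))
    (by
      intro x y x' y' t h1 h2 h3 h4 m h5 h6 h7
      have h8 : -(4 * (a : ℤ)) ≤ x' ∧ x' ≤ -(2 * a) := by
        cases t
        · rw [hS4, mem_TBE_false] at h7; omega
        · rw [hS4, mem_TBE_true] at h7; omega
      rcases lt_trichotomy m 0 with hm | hm | hm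
      · nlinarith
      · subst hm; omega
      · nlinarith)
    (TBc (-(2 * b)) (-b) (-(2 * b)) (2 * b))
    (hTB _ _ _ _ (by omega) (by omega) (by omega) k)
  have b5 := bad_onex (M := 20 * a) (k := k) h0 ha le_rfl hφ (S := S5)
    (by
      refine (image_subset_image LRE_subset_RE).trans (image_red_sub (by omega) ?_ ?_) <;> omega)
    ((red_inj_y (n := 10 * a) (a := b) (b := n + 2 * b) (c := -b) (d := b)
      (by omega)).mono (by exact_mod_cast LRE_subset_RE))
    (by
      intro x y x' y' t h1 h2 h3 h4 m h5 h6 h7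
      have h8 : 2 * (a : ℤ) ≤ x' ∧ (-(2 * (a : ℤ)) ≤ y' ∧ y' ≤ 2 * a) := by
        cases t
        · rw [hS5, mem_LRE_false] at h7; omega
        · rw [hS5, mem_LRE_true] at h7; omega
      rcases lt_trichotomy m 0 with hm | hm | hm
      · nlinarith
      · subst hm; omega
      · nlinarith)
    (LRc b (n + 2 * b) (-b) b)
    (hLR _ _ _ _ (by omega) (by omega) (by omega) k)
  have b6 := bad_onex (M := 20 * a) (k := k) h0 ha le_rfl hφ (S := S6)
    (by
      refine (image_subset_image TBE_subset_RE).trans (image_red_sub (by omega) ?_ ?_) <;> omega)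
    ((red_inj_x (n := 10 * a) (a := n - b) (b := n + b) (c := -(2 * b)) (d := n - b)
      (by omega)).mono (by exact_mod_cast TBE_subset_RE))
    (by
      intro x y x' y' t h1 h2 h3 h4 m h5 h6 h7
      have h8 : (8 * (a : ℤ) ≤ x' ∧ x' ≤ 12 * a) ∧ (-(4 * (a : ℤ)) ≤ y' ∧ y' ≤ 8 * a) := by
        cases t
        · rw [hS6, mem_TBE_false] at h7; omega
        · rw [hS6, mem_TBE_true] at h7; omega
      rcases lt_trichotomy m 0 with hm | hm | hm
      · nlinarith
      · subst hm; omega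
      · rcases (show m = 1 ∨ 2 ≤ m by omega) with h9 | h9
        · subst h9; omega
        · nlinarith)
    (TBc (n - b) (n + b) (-(2 * b)) (n - b))
    (hTB _ _ _ _ (by omega) (by omega) (by omega) k)
  have key : ∀ F : Finset Edg, φ F * ind (¬ Pool.Agent.H863R2.NL.Good (10 * a) (2 * a) k F) ≤
      ((((φ F * ind (¬ Pool.Agent.H863R2.NL.Opn k S1 (LRc (-(2 * b)) (2 * b) b (2 * b)) (pf (10 * a) S1 F)) +
        φ F * ind (¬ Pool.Agent.H863R2.NL.Opn k S2 (LRc (-(2 * b)) (2 * b) (-(2 * b)) (-b)) (pf (10 * a) S2 F))) +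
        φ F * ind (¬ Pool.Agent.H863R2.NL.Opn k S3 (TBc b (2 * b) (-(2 * b)) (2 * b)) (pf (10 * a) S3 F))) +
        φ F * ind (¬ Pool.Agent.H863R2.NL.Opn k S4 (TBc (-(2 * b)) (-b) (-(2 * b)) (2 * b)) (pf (10 * a) S4 F))) +
        φ F * ind (¬ Pool.Agent.H863R2.NL.Opn k S5 (LRc b (n + 2 * b) (-b) b) (pf (10 * a) S5 F))) +
        φ F * ind (¬ Pool.Agent.H863R2.NL.Opn k S6 (TBc (n - b) (n + b) (-(2 * b)) (n - b)) (pf (10 * a) S6 F)) := by
    intro F
    simp only [← mul_add]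
    refine mul_le_mul_of_nonneg_left ?_ (h0 F)
    have h1 : ¬ Pool.Agent.H863R2.NL.Good (10 * a) (2 * a) k F →
        ((((¬ Pool.Agent.H863R2.NL.Opn k S1 (LRc (-(2 * b)) (2 * b) b (2 * b)) (pf (10 * a) S1 F) ∨
        ¬ Pool.Agent.H863R2.NL.Opn k S2 (LRc (-(2 * b)) (2 * b) (-(2 * b)) (-b)) (pf (10 * a) S2 F)) ∨
        ¬ Pool.Agent.H863R2.NL.Opn k S3 (TBc b (2 * b) (-(2 * b)) (2 * b)) (pf (10 * a) S3 F)) ∨
        ¬ Pool.Agent.H863R2.NL.Opn k S4 (TBc (-(2 * b)) (-b) (-(2 * b)) (2 * b)) (pf (10 * a) S4 F)) ∨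
        ¬ Pool.Agent.H863R2.NL.Opn k S5 (LRc b (n + 2 * b) (-b) b) (pf (10 * a) S5 F)) ∨
        ¬ Pool.Agent.H863R2.NL.Opn k S6 (TBc (n - b) (n + b) (-(2 * b)) (n - b)) (pf (10 * a) S6 F) := by
      intro h
      by_contra h2
      simp only [not_or, not_not] at h2
      exact h ⟨⟨h2.1.1.1.1.1, h2.1.1.1.1.2⟩, ⟨h2.1.1.1.2, h2.1.1.2⟩, ⟨h2.1.2, h2.2⟩⟩
    refine (ind_mono h1).trans ?_
    refine (ind_or_le _ _).trans (add_le_add ?_ le_rfl)
    refine (ind_or_le _ _).trans (add_le_add ?_ le_rfl)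
    refine (ind_or_le _ _).trans (add_le_add ?_ le_rfl)
    refine (ind_or_le _ _).trans (add_le_add ?_ le_rfl)
    exact ind_or_le _ _
  have h1 := Ex_mono ok (S := CE (10 * a) (20 * a)) fun F _ => key F
  simp only [Ex_add] at h1
  linarith

end Pool.Agent.W52.NC
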