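import Pool.Agent.W819.EN.Layers
import Pool.Agent.W819.NC.Stm

set_option autoImplicit false

/-! # NC-TRANS: passage to the infinite lattice -/

namespace Pool.Agent.W52.NC
open H974 H906.Cyl Finset Pool.Agent.W819.EN Pool.Agent.W819.NC MeasureTheory

theorem int_FF (p : unitInterval) (S : Finset Edg) (g : Finset Edg → ℝ) :
    ∫ ω, g (FF S ω) ∂(bondLaw p) = Ex (fun _ => (p : ℝ)) S g := by
  classical
  have h1 : ∀ ω, g (FF S ω) = ∑ T ∈ S.powerset,
      Set.indicator {ω | FF S ω = T} (fun _ => g T) ω := by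
    intro ω
    rw [Finset.sum_eq_single (FF S ω)]
    · rw [Set.indicator_of_mem (show ω ∈ {ω' | FF S ω' = FF S ω} from rfl)]
    · intro T _ hT
      exact Set.indicator_of_notMem (fun h => hT (Eq.symm h)) _
    · intro h
      exact absurd (Finset.mem_powerset.2 (Finset.filter_subset _ _)) h
  have h2 : ∀ T ∈ S.powerset, Integrable
      (Set.indicator {ω : sqLattice.edgeSet → Bool | FF S ω = T} (fun _ => g T)) (bondLaw p) :=
    fun T _ => (integrable_const (g T)).indicator (meas_FF S T)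
  rw [integral_congr_ae (Filter.Eventually.of_forall h1), integral_finsetSum _ h2]
  unfold Ex
  refine Finset.sum_congr rfl fun T hT => ?_
  rw [integral_indicator_const _ (meas_FF S T), law_eq p (Finset.mem_powerset.1 hT), smul_eq_mul]

theorem FF_inter (B S A : Finset Edg) (hBS : B ⊆ S) (hA : A ⊆ B)
    (ω : sqLattice.edgeSet → Bool) : FF B ω ∩ A = FF S ω ∩ A := by
  ext e
  rw [mem_inter, mem_inter, mem_FF, mem_FF]
  constructor
  · rintro ⟨⟨h1, h2⟩, h3⟩
    exact ⟨⟨hBS h1, h2⟩, h3⟩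
  · rintro ⟨⟨_, h2⟩, h3⟩
    exact ⟨⟨hA h3, h2⟩, h3⟩

theorem lay_eq (v : ℤ × ℤ) (n : ℕ) (S : Finset Edg) (hv : bx v n ⊆ S)
    (ω : sqLattice.edgeSet → Bool) : layers n v ω = NA (FF S ω) v 0 n := by
  rw [layers_eq]
  unfold lay
  have hA : an v 0 n ⊆ bx v n := by
    unfold an
    exact sdiff_subset
  rw [Pool.Agent.W918.EN.t_LOC (FF (bx v n) ω) v 0 n (Nat.zero_le n),
    Pool.Agent.W918.EN.t_LOC (FF S ω) v 0 n (Nat.zero_le n), FF_inter _ S _ hv hA]

theorem t_TRANS (t1 t2 : ℝ) (v w : ℤ × ℤ) (n : ℕ) (S : Finset Edg) (hv : bx v n ⊆ S)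
    (hw : bx w n ⊆ S) :
    ∫ ω, t1 ^ layers n v ω * t2 ^ layers n w ω ∂(bondLaw hlf) = T2 NA t1 t2 v w n S := by
  have h1 : ∀ ω, t1 ^ layers n v ω * t2 ^ layers n w ω =
      (fun F => t1 ^ NA F v 0 n * t2 ^ NA F w 0 n) (FF S ω) := by
    intro ω
    rw [lay_eq v n S hv ω, lay_eq w n S hw ω]
  refine (integral_congr_ae (Filter.Eventually.of_forall h1)).trans
    ((int_FF hlf S (fun F => t1 ^ NA F v 0 n * t2 ^ NA F w 0 n)).trans ?_)
  unfold T2
  congr 1

end Pool.Agent.W52.NC
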